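import Pool.Agent.MP_2d33ec_an.AP.Ent

/-!
A dynamical system without periodic points, of mean dimension zero, all of whose nontrivial
factors have infinite topological entropy.  The theorem `q1` at the end is the posed question
(its negation), read off from `result`.
-/

namespace Pool.Agent.Results.MP_2d33ec_an.Aperiodic

open Pool.Agent.MP_2d33ec_an

universe u

theorem result :
    ∃ (X : Type) (_ : TopologicalSpace X) (_ : CompactSpace X)
      (_ : TopologicalSpace.MetrizableSpace X) (T : X ≃ₜ X),
      Nontrivial X ∧ (∀ n : ℕ, 0 < n → ∀ x : X, T^[n] x ≠ x) ∧ mdim T = 0 ∧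
      ∀ (Y : Type u) [MetricSpace Y] [CompactSpace Y] (S : Y ≃ₜ Y) (π : X → Y),
        Continuous π → Function.Surjective π → Function.Semiconj π T S → Nontrivial Y →
        Dynamics.coverEntropy S Set.univ = ⊤ :=
  ⟨AP.XA, inferInstance, inferInstance, inferInstance, AP.TA,
    ⟨_, _, AP.aperiodic 1 Nat.one_pos ⟨_, AP.ee_mem⟩⟩, AP.aperiodic, AP.mdim_TA,
    fun _ _ _ S π hπ hsurj hsc _ => AP.entropy_top S π hπ hsurj hsc⟩

/-- The posed question Q1, answered in the negative: conditions (a) and (b) are not equivalent
for every dynamical system. -/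
theorem q1 :
    ¬ ∀ (X : Type) [TopologicalSpace X] [CompactSpace X] [TopologicalSpace.MetrizableSpace X]
      (T : X ≃ₜ X),
      (∀ (Y : Type) [MetricSpace Y] [CompactSpace Y] (S : Y ≃ₜ Y) (π : X → Y),
        Continuous π → Function.Surjective π → Function.Semiconj π T S → Nontrivial Y →
        Dynamics.coverEntropy S Set.univ = ⊤) ↔
      (∀ (Y : Type) [MetricSpace Y] [CompactSpace Y] (S : Y ≃ₜ Y) (π : X → Y),
        Continuous π → Function.Surjective π → Function.Semiconj π T S → Nontrivial Y →
        0 < mdim S) := by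
  intro h
  obtain ⟨X, _, _, _, T, hX, -, h0, ha⟩ := result.{0}
  let _ : MetricSpace X := TopologicalSpace.metrizableSpaceMetric X
  have hb := (h X T).1 ha X T id continuous_id Function.surjective_id (fun _ => rfl) hX
  exact hb.ne' h0

end Pool.Agent.Results.MP_2d33ec_an.Aperiodic
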