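import Pool.Agent.MP_2d33ec_an.MF.Main

/-!
A transitive dynamical system with an infinite minimal factor, all of whose nontrivial factors have
infinite topological entropy, and with a nontrivial factor of mean dimension zero.
-/

namespace Pool.Agent.Results.MP_2d33ec_an.MinimalFactor

open Pool.Agent.MP_2d33ec_an

universe u

theorem result :
    ∃ (X : Type) (_ : TopologicalSpace X) (_ : CompactSpace X)
      (_ : TopologicalSpace.MetrizableSpace X) (T : X ≃ₜ X),
      (∀ U V : Set X, IsOpen U → IsOpen V → U.Nonempty → V.Nonempty →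
        ∃ n : ℕ, ∃ x ∈ U, T^[n] x ∈ V) ∧
      (∃ (M : Type) (_ : TopologicalSpace M) (_ : CompactSpace M)
        (_ : TopologicalSpace.MetrizableSpace M) (R : M ≃ₜ M) (ρ : X → M),
        Continuous ρ ∧ Function.Surjective ρ ∧ Function.Semiconj ρ T R ∧ Infinite M ∧
        ∀ m : M, Dense (Set.range fun n : ℕ => R^[n] m)) ∧
      (∀ (Y : Type u) [MetricSpace Y] [CompactSpace Y] (S : Y ≃ₜ Y) (π : X → Y),
        Continuous π → Function.Surjective π → Function.Semiconj π T S → Nontrivial Y →
        Dynamics.coverEntropy S Set.univ = ⊤) ∧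
      ∃ (Z : Type) (_ : TopologicalSpace Z) (_ : CompactSpace Z)
        (_ : TopologicalSpace.MetrizableSpace Z) (Q : Z ≃ₜ Z) (ζ : X → Z),
        Continuous ζ ∧ Function.Surjective ζ ∧ Function.Semiconj ζ T Q ∧ Nontrivial Z ∧
        mdim Q = 0 := by
  obtain ⟨T⟩ := MF.exists_tower
  have := T.infinite
  exact ⟨XX × T.M, inferInstance, inferInstance, inferInstance, T.TW,
    fun _ _ => T.transitive, ⟨T.M, inferInstance, inferInstance, inferInstance, T.sM, Prod.snd,
      continuous_snd, Prod.snd_surjective, fun _ => rfl, T.infinite, T.minimal⟩,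
    fun _ _ _ S π hπ hsurj hsc _ => T.entropy_top S π hπ hsurj hsc,
    XX, inferInstance, inferInstance, inferInstance, TT, Prod.fst, continuous_fst,
    Prod.fst_surjective, fun _ => rfl, inferInstance, mdim_TT⟩

end Pool.Agent.Results.MP_2d33ec_an.MinimalFactor
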